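import Pool.Agent.Q287.RelPaving

/-! Every reliability root of a paving matroid lies in the closed unit disk. -/

namespace Pool.Agent.Results.MP_1ae31d_co.RootsInDisk

open Polynomial

variable {α : Type*}

/-- A matroid is paving if every circuit has at least `r` elements, `r` its rank. -/
def IsPaving (M : Matroid α) : Prop := ∀ C, M.IsCircuit C → M.eRank ≤ C.encard

/-- The number of independent sets of size `k`. -/
noncomputable def numIndep (M : Matroid α) (k : ℕ) : ℕ := {I : Set α | M.Indep I ∧ I.ncard = k}.ncard

/-- The reliability polynomial `∑_{k ≤ r} f_k q^k (1 - q)^(m - k)` of a finite matroid, `r` the rank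
and `m` the number of elements. -/
noncomputable def relPoly (M : Matroid α) : ℂ[X] :=
  ∑ k ∈ Finset.range (M.eRank.toNat + 1),
    (numIndep M k : ℂ[X]) * X ^ k * (1 - X) ^ (M.E.ncard - k)

open Classical in
theorem numIndep_eq (M : Matroid α) [hM : M.Finite] (k : ℕ) :
    numIndep M k = ((M.ground_finite.toFinset.powersetCard k).filter
      (fun N : Finset α => M.Indep (N : Set α))).card := by
  unfold numIndep
  rw [← Set.ncard_coe_finset, ← Set.ncard_image_of_injective _ Finset.coe_injective]
  congr 1
  ext I
  simp only [Set.mem_ofPred_eq, Set.mem_image, Finset.mem_coe, Finset.mem_filter,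
    Finset.mem_powersetCard]
  constructor
  · rintro ⟨hI, hk⟩
    have hfin : I.Finite := M.ground_finite.subset hI.subset_ground
    refine ⟨hfin.toFinset, ⟨⟨?_, ?_⟩, ?_⟩, ?_⟩
    · intro x hx
      simpa using hI.subset_ground (by simpa using hx)
    · rw [← hk, Set.ncard_eq_toFinset_card _ hfin]
    · simpa using hI
    · simp
  · rintro ⟨N, ⟨⟨hN, hNc⟩, hNi⟩, rfl⟩
    exact ⟨hNi, by rw [Set.ncard_coe_finset, hNc]⟩

/-- **MP_1ae31d_co, Q1.** The reliability polynomial of a finite paving matroid is not zero and all
its complex roots lie in the closed unit disk. -/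
theorem result (M : Matroid α) [M.Finite] (hM : IsPaving M) :
    relPoly M ≠ 0 ∧ ∀ z ∈ (relPoly M).roots, ‖z‖ ≤ 1 := by
  classical
  set E : Finset α := M.ground_finite.toFinset with hE
  have hEc : (E : Set α) = M.E := by simp [hE]
  set r := M.eRank.toNat with hr
  have hr' : M.eRank = r := by
    rw [hr, ENat.natCast_toNat]
    exact (Matroid.eRank_ne_top_iff M).2 inferInstance
  set B : Finset α → Prop := fun N => M.Indep (N : Set α) with hB
  have hcE : M.E.ncard = E.card := by rw [← hEc, Set.ncard_coe_finset]
  -- a dependent set of size at most `r` is a circuit of size `r`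
  have hcirc : ∀ N : Finset α, N ⊆ E → N.card ≤ r → ¬ B N → M.IsCircuit (N : Set α) ∧ N.card = r := by
    intro N hN hNc hNB
    have hdep : M.Dep (N : Set α) := ⟨hNB, by rw [← hEc]; exact_mod_cast hN⟩
    obtain ⟨C, hCN, hC⟩ := hdep.exists_isCircuit_subset
    have h1 := hM C hC
    rw [hr'] at h1
    have h2 : C.encard ≤ N.card := by
      rw [← Set.encard_coe_eq_coe_finsetCard]
      exact Set.encard_le_encard hCN
    have h3 : (r : ℕ∞) ≤ N.card := h1.trans h2
    have h4 : r ≤ N.card := by exact_mod_cast h3
    have h5 : (N : Set α).encard ≤ C.encard := by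
      rw [Set.encard_coe_eq_coe_finsetCard]
      refine le_trans ?_ h1
      exact_mod_cast hNc
    have h6 : C = N := (Finset.finite_toSet N).eq_of_subset_of_encard_le' hCN h5
    exact ⟨h6 ▸ hC, le_antisymm hNc h4⟩
  have hP : Q287.RelComb.P E r B := by
    intro X hX hXc N₁ hN₁ hc₁ N₂ hN₂ hc₂ hne hB₁ hB₂ N hN hc hNB
    have hC₁ := (hcirc N₁ (hN₁.trans hX) hc₁.le hB₁).1
    have hC₂ := (hcirc N₂ (hN₂.trans hX) hc₂.le hB₂).1
    obtain ⟨x, hxX, hxN⟩ := Finset.exists_mem_notMem_of_card_lt_card (by omega : N.card < X.card)
    have hXN : insert x N = X := by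
      apply Finset.eq_of_subset_of_card_le (Finset.insert_subset hxX hN)
      rw [Finset.card_insert_of_notMem hxN]
      omega
    have hX' : (X : Set α) = insert x (N : Set α) := by rw [← hXN]; simp
    have h1 := hC₁.eq_fundCircuit_of_subset hNB (by rw [← hX']; exact_mod_cast hN₁)
    have h2 := hC₂.eq_fundCircuit_of_subset hNB (by rw [← hX']; exact_mod_cast hN₂)
    apply hne
    rw [← Finset.coe_inj, h1, h2]
  have hne : ∃ N ⊆ E, N.card = r ∧ B N := by
    obtain ⟨B₀, hB₀⟩ := M.exists_isBase
    have hfin : B₀.Finite := M.ground_finite.subset hB₀.subset_ground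
    refine ⟨hfin.toFinset, ?_, ?_, ?_⟩
    · intro x hx
      simpa [hE] using hB₀.subset_ground (by simpa using hx)
    · have h1 := hB₀.encard_eq_eRank
      rw [hr', hfin.encard_eq_coe_toFinset_card] at h1
      exact_mod_cast h1
    · simpa [hB] using hB₀.indep
  -- evaluation of the polynomial
  have heval : ∀ z : ℂ, 1 < ‖z‖ → (relPoly M).eval z ≠ 0 := by
    intro z hz
    have h1 := Q287.RelPaving.main E r B hP hne z hz
    have h2 : (relPoly M).eval z = ∑ k ∈ Finset.range r, (E.card.choose k : ℂ) * z ^ k *
        (1 - z) ^ (E.card - k) +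
        (((E.powersetCard r).filter B).card : ℂ) * z ^ r * (1 - z) ^ (E.card - r) := by
      unfold relPoly
      rw [eval_finsetSum, Finset.sum_range_succ]
      simp only [eval_mul, eval_pow, eval_sub, eval_one, eval_X, eval_natCast]
      congr 1
      · apply Finset.sum_congr rfl
        intro k hk
        have hk' := Finset.mem_range.1 hk
        have h3 : numIndep M k = E.card.choose k := by
          rw [numIndep_eq, Finset.filter_true_of_mem, Finset.card_powersetCard]
          intro N hN
          obtain ⟨h4, h5⟩ := Finset.mem_powersetCard.1 hN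
          by_contra h6
          have h7 := (hcirc N h4 (by omega) h6).2
          omega
        rw [h3, hcE]
      · rw [numIndep_eq, hcE]
    rw [h2]
    exact h1
  constructor
  · intro h0
    apply heval 2 (by norm_num)
    rw [h0, eval_zero]
  · intro z hz
    by_contra hcon
    push Not at hcon
    exact heval z hcon (isRoot_of_mem_roots hz)

end Pool.Agent.Results.MP_1ae31d_co.RootsInDisk
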